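import Pool.Agent.H62.Per.Defs

/-! Module CROSS of the distinct perimeters project. -/

set_option autoImplicit false

open Finset Polynomial

namespace Pool.Agent.H79.Per

open Pool.Agent.H62.Per

/-- the numerator of a coordinate -/
noncomputable def num (a b c : ℝ) : ℝ[X] := C c + C a * X + C b * X ^ 2

lemma num_eval (a b c z : ℝ) (hz : z ≠ 0) : (num a b c).eval z = z * (a + z * b + z⁻¹ * c) := by
  simp only [num, eval_add, eval_mul, eval_C, eval_X, eval_pow]
  field_simp
  ring

lemma num_deg (a b c : ℝ) : (num a b c).natDegree ≤ 2 := by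
  unfold num
  compute_degree

lemma branchPoly {m : ℕ} (h : Arr m) (c0 c1 c2 : Pl) :
    ∃ G : ℝ[X], G.natDegree ≤ 4 * m ∧
      ∀ z : ℝ, 0 < z → G.eval z = z ^ (2 * m) * ev h (c0 + z • c1 + z⁻¹ • c2) := by
  refine ⟨∑ i : Fin m, ∑ k : Fin m, C (h i k) * ((num c0.1 c1.1 c2.1) ^ (i : ℕ) *
    ((num c0.2 c1.2 c2.2) ^ (k : ℕ) * X ^ (2 * m - i - k))), ?_, ?_⟩
  · refine natDegree_sum_le_of_forall_le _ _ fun i _ => natDegree_sum_le_of_forall_le _ _
      fun k _ => ?_
    have hi := i.2
    have hk := k.2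
    refine (natDegree_C_mul_le _ _).trans ?_
    refine natDegree_mul_le.trans ?_
    have h1 : ((num c0.1 c1.1 c2.1) ^ (i : ℕ)).natDegree ≤ i * 2 :=
      natDegree_pow_le.trans (Nat.mul_le_mul_left _ (num_deg _ _ _))
    have h2 : ((num c0.2 c1.2 c2.2) ^ (k : ℕ) * X ^ (2 * m - i - k)).natDegree ≤
        k * 2 + (2 * m - i - k) := by
      refine natDegree_mul_le.trans ?_
      refine Nat.add_le_add (natDegree_pow_le.trans (Nat.mul_le_mul_left _ (num_deg _ _ _))) ?_
      exact natDegree_X_pow_le _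
    omega
  · intro z hz
    have hz' : z ≠ 0 := hz.ne'
    simp only [eval_finsetSum, eval_mul, eval_C, eval_pow, num_eval _ _ _ _ hz', eval_X, ev,
      Finset.mul_sum]
    refine Finset.sum_congr rfl fun i _ => Finset.sum_congr rfl fun k _ => ?_
    have hi := i.2
    have hk := k.2
    have e : 2 * m = (i : ℕ) + ((k : ℕ) + (2 * m - i - k)) := by omega
    simp only [Prod.fst_add, Prod.snd_add, Prod.smul_fst, Prod.smul_snd, smul_eq_mul]
    generalize (c0.1 + z * c1.1 + z⁻¹ * c2.1) = A
    generalize (c0.2 + z * c1.2 + z⁻¹ * c2.2) = B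
    conv_rhs => rw [e]
    rw [mul_pow, mul_pow, pow_add, pow_add]
    ring

theorem cross (hP : PARAM) : CROSS := by
  intro J m fs p q h hnd hne
  obtain ⟨c0, c1, c2, ζ, -, hζ, hz⟩ := hP p q h hnd
  choose G hGd hG using fun j => branchPoly (fs j) c0 c1 c2
  have hGx : ∀ x, dd p x - dd q x = h → ∀ j, (G j).eval (ζ x) = (ζ x) ^ (2 * m j) * ev (fs j) x := by
    intro x hx j
    rw [hG j (ζ x) (hζ x hx).1, ← (hζ x hx).2]
  have hG0 : ∀ j, G j ≠ 0 := by
    intro j h0
    obtain ⟨x, hx, hxe⟩ := hne j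
    have := hGx x hx j
    rw [h0, eval_zero] at this
    have h1 := (hζ x hx).1
    exact mul_ne_zero (pow_ne_zero _ h1.ne') hxe this.symm
  set Q : ℝ[X] := ∏ j, G j with hQ
  have hQ0 : Q ≠ 0 := Finset.prod_ne_zero_iff.2 fun j _ => hG0 j
  have hQd : Q.natDegree ≤ 4 * ∑ j, m j := by
    rw [hQ, Finset.mul_sum]
    exact (natDegree_prod_le _ _).trans (Finset.sum_le_sum fun j _ => hGd j)
  have hroots : Q.roots.toFinset.card ≤ 4 * ∑ j, m j :=
    (Multiset.toFinset_card_le _).trans ((card_roots' Q).trans hQd)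
  have hQe : ∀ z, Q.eval z = ∏ j, (G j).eval z := fun z => eval_prod _ _ _
  refine ⟨?_, ?_⟩
  · intro S hS
    refine le_trans ?_ hroots
    refine Finset.card_le_card_of_injOn ζ ?_ ?_
    · intro x hx
      obtain ⟨hx1, j, hj⟩ := hS x hx
      simp only [Finset.mem_coe, Multiset.mem_toFinset]
      rw [mem_roots hQ0, IsRoot, hQe]
      refine Finset.prod_eq_zero (Finset.mem_univ j) ?_
      rw [hGx x hx1 j, hj, mul_zero]
    · intro x hx y hy hxy
      have hx1 := (hζ x (hS x hx).1).2
      have hy1 := (hζ y (hS y hy).1).2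
      rw [hx1, hy1, hxy]
  · refine ⟨fun x => (Q.roots.toFinset.filter (fun r => r < ζ x)).card, ?_, ?_⟩
    · intro x
      exact (Finset.card_le_card (Finset.filter_subset _ _)).trans hroots
    · -- main
      have key : ∀ x y, dd p x - dd q x = h → dd p y - dd q y = h → (∀ j, ev (fs j) x ≠ 0) →
        (∀ j, ev (fs j) y ≠ 0) → (Q.roots.toFinset.filter (fun r => r < ζ x)).card =
          (Q.roots.toFinset.filter (fun r => r < ζ y)).card → ζ x ≤ ζ y →
          ∀ j, 0 < ev (fs j) x * ev (fs j) y := by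
        intro x y hx hy hxe hye hι hle j
        have hsub : Q.roots.toFinset.filter (fun r => r < ζ x) ⊆
            Q.roots.toFinset.filter (fun r => r < ζ y) := by
          intro r hr
          rw [Finset.mem_filter] at hr ⊢
          exact ⟨hr.1, lt_of_lt_of_le hr.2 hle⟩
        have heq := Finset.eq_of_subset_of_card_le hsub hι.ge
        have hzx := (hζ x hx).1
        have hzy := (hζ y hy).1
        have hno : ∀ z ∈ Set.Icc (ζ x) (ζ y), (G j).eval z ≠ 0 := by
          intro z hz1 h0
          rcases hz1.2.lt_or_eq with hlt | he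
          · have hzr : z ∈ Q.roots.toFinset.filter (fun r => r < ζ y) := by
              rw [Finset.mem_filter, Multiset.mem_toFinset, mem_roots hQ0, IsRoot, hQe]
              exact ⟨Finset.prod_eq_zero (Finset.mem_univ j) h0, hlt⟩
            rw [← heq, Finset.mem_filter] at hzr
            exact absurd hzr.2 (not_lt.2 hz1.1)
          · rw [he, hGx y hy j] at h0
            exact mul_ne_zero (pow_ne_zero _ hzy.ne') (hye j) h0
        have hprod : 0 < (G j).eval (ζ x) * (G j).eval (ζ y) := by
          by_contra hcon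
          have hcon' : (G j).eval (ζ x) * (G j).eval (ζ y) < 0 := by
            refine lt_of_le_of_ne (not_lt.1 hcon) ?_
            exact mul_ne_zero (hno _ ⟨le_rfl, hle⟩) (hno _ ⟨hle, le_rfl⟩)
          have hc : ContinuousOn (fun z => (G j).eval z) (Set.Icc (ζ x) (ζ y)) :=
            (G j).continuous.continuousOn
          rcases mul_neg_iff.1 hcon' with ⟨h1, h2⟩ | ⟨h1, h2⟩
          · obtain ⟨z, hz1, hz2⟩ := intermediate_value_Icc' hle hc ⟨h2.le, h1.le⟩
            exact hno z hz1 hz2
          · obtain ⟨z, hz1, hz2⟩ := intermediate_value_Icc hle hc ⟨h1.le, h2.le⟩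
            exact hno z hz1 hz2
        rw [hGx x hx j, hGx y hy j] at hprod
        have hpos : 0 < (ζ x) ^ (2 * m j) * (ζ y) ^ (2 * m j) := by positivity
        have : (ζ x) ^ (2 * m j) * ev (fs j) x * ((ζ y) ^ (2 * m j) * ev (fs j) y) =
            ((ζ x) ^ (2 * m j) * (ζ y) ^ (2 * m j)) * (ev (fs j) x * ev (fs j) y) := by ring
        rw [this] at hprod
        exact (mul_pos_iff_of_pos_left hpos).1 hprod
      intro x y hx hy hxe hye hι j
      rcases le_total (ζ x) (ζ y) with hle | hle
      · exact key x y hx hy hxe hye hι hle j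
      · rw [mul_comm]
        exact key y x hy hx hye hxe hι.symm hle j

end Pool.Agent.H79.Per
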