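import Pool.Agent.H62.Per.Defs

/-! Module EXC of the distinct perimeters project. -/

set_option autoImplicit false

open Finset Polynomial

namespace Pool.Agent.H79.Per

open Pool.Agent.H62.Per

lemma finpoly {m : ℕ} (a : Fin m → ℝ) (k0 : Fin m) (ha : a k0 ≠ 0) :
    ∃ P : ℝ[X], P ≠ 0 ∧ P.natDegree ≤ m ∧ ∀ t, P.eval t = ∑ k, a k * t ^ (k : ℕ) := by
  refine ⟨∑ k : Fin m, C (a k) * X ^ (k : ℕ), ?_, ?_, ?_⟩
  · intro h0
    have h1 : (∑ k : Fin m, C (a k) * X ^ (k : ℕ)).coeff k0 = a k0 := by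
      rw [finsetSum_coeff, Finset.sum_eq_single k0]
      · rw [coeff_C_mul_X_pow, if_pos rfl]
      · intro k _ hk
        rw [coeff_C_mul_X_pow, if_neg]
        intro h
        exact hk (Fin.ext h.symm)
      · intro h
        exact absurd (Finset.mem_univ _) h
    rw [h0, coeff_zero] at h1
    exact ha h1.symm
  · refine natDegree_sum_le_of_forall_le _ _ fun k _ => ?_
    exact (natDegree_C_mul_X_pow_le _ _).trans k.2.le
  · intro t
    simp only [eval_finsetSum, eval_mul, eval_C, eval_pow, eval_X]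

lemma roots_bdd (P : ℝ[X]) (hP : P ≠ 0) : ∃ R : ℝ, ∀ t, R < |t| → P.eval t ≠ 0 := by
  obtain ⟨R, hR⟩ := (P.roots.toFinset.image (fun r => |r|)).exists_le
  refine ⟨R, fun t ht h0 => ?_⟩
  have : |t| ≤ R := by
    refine hR _ (Finset.mem_image.2 ⟨t, ?_, rfl⟩)
    rw [Multiset.mem_toFinset, mem_roots hP]
    exact h0
  linarith

lemma line_count {m : ℕ} (h : Arr m) (h0 : h ≠ 0) :
    ∃ R : ℝ, ∀ ρ : ℝ, R < |ρ| → ∀ S : Finset Pl, (∀ x ∈ S, x.1 = ρ ∧ ev h x = 0) → S.card ≤ m := by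
  have hex : ∃ i k, h i k ≠ 0 := by
    by_contra hcon
    push Not at hcon
    exact h0 (funext fun i => funext fun k => hcon i k)
  obtain ⟨i0, k0, hik⟩ := hex
  obtain ⟨P, hP0, -, hPe⟩ := finpoly (fun i => h i k0) i0 hik
  obtain ⟨R, hR⟩ := roots_bdd P hP0
  refine ⟨R, fun ρ hρ S hS => ?_⟩
  have h1 : ∑ i, h i k0 * ρ ^ (i : ℕ) ≠ 0 := by
    have := hR ρ hρ
    rwa [hPe] at this
  obtain ⟨Q, hQ0, hQd, hQe⟩ := finpoly (fun k => ∑ i, h i k * ρ ^ (i : ℕ)) k0 h1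
  have hcard : Q.roots.toFinset.card ≤ m :=
    (Multiset.toFinset_card_le _).trans ((card_roots' Q).trans hQd)
  refine le_trans ?_ hcard
  refine Finset.card_le_card_of_injOn (fun x => x.2) ?_ ?_
  · intro x hx
    obtain ⟨hx1, hx2⟩ := hS x hx
    simp only [Finset.mem_coe, Multiset.mem_toFinset]
    rw [mem_roots hQ0, IsRoot, hQe, ← hx2, ev, Finset.sum_comm]
    refine Finset.sum_congr rfl fun k _ => ?_
    rw [Finset.sum_mul]
    refine Finset.sum_congr rfl fun i _ => ?_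
    rw [hx1]
  · intro x hx y hy hxy
    exact Prod.ext ((hS x hx).1.trans (hS y hy).1.symm) hxy

lemma ev_swap {m : ℕ} (h : Arr m) (x : Pl) : ev (fun i k => h k i) x.swap = ev h x := by
  simp only [ev, Prod.fst_swap, Prod.snd_swap]
  rw [Finset.sum_comm]
  refine Finset.sum_congr rfl fun i _ => Finset.sum_congr rfl fun k _ => ?_
  ring

lemma line_count' {m : ℕ} (h : Arr m) (h0 : h ≠ 0) :
    ∃ R : ℝ, ∀ ρ : ℝ, R < |ρ| → ∀ S : Finset Pl, (∀ x ∈ S, x.2 = ρ ∧ ev h x = 0) → S.card ≤ m := by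
  have h0' : (fun i k => h k i : Arr m) ≠ 0 := by
    intro hh
    apply h0
    funext i k
    exact congrFun (congrFun hh k) i
  obtain ⟨R, hR⟩ := line_count (fun i k => h k i) h0'
  refine ⟨R, fun ρ hρ S hS => ?_⟩
  have := hR ρ hρ (S.image Prod.swap) ?_
  · rwa [Finset.card_image_of_injective _ Prod.swap_injective] at this
  · intro x hx
    obtain ⟨y, hy, rfl⟩ := Finset.mem_image.1 hx
    refine ⟨(hS y hy).1, ?_⟩
    rw [ev_swap]
    exact (hS y hy).2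

lemma square_count {m : ℕ} (h : Arr m) (h0 : h ≠ 0) :
    ∃ R : ℝ, ∀ ρ : ℝ, R < ρ → 0 < ρ → ∀ S : Finset Pl, (∀ x ∈ S, ‖x‖ = ρ ∧ ev h x = 0) →
      S.card ≤ 4 * m := by
  obtain ⟨R1, hR1⟩ := line_count h h0
  obtain ⟨R2, hR2⟩ := line_count' h h0
  refine ⟨max R1 R2, fun ρ hρ hpos S hS => ?_⟩
  have habs : |ρ| = ρ := abs_of_pos hpos
  have h1 : R1 < |ρ| := by rw [habs]; exact (le_max_left _ _).trans_lt hρ
  have h2 : R2 < |ρ| := by rw [habs]; exact (le_max_right _ _).trans_lt hρ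
  have h1' : R1 < |-ρ| := by rwa [abs_neg]
  have h2' : R2 < |-ρ| := by rwa [abs_neg]
  have hsub : S ⊆ S.filter (fun x => x.1 = ρ) ∪ S.filter (fun x => x.1 = -ρ) ∪
      (S.filter (fun x => x.2 = ρ) ∪ S.filter (fun x => x.2 = -ρ)) := by
    intro x hx
    have hn := (hS x hx).1
    rw [Prod.norm_def] at hn
    simp only [Finset.mem_union, Finset.mem_filter]
    rcases max_choice ‖x.1‖ ‖x.2‖ with hm | hm
    · rw [hm, Real.norm_eq_abs] at hn
      rcases (abs_eq hpos.le).1 hn with h | h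
      · exact Or.inl (Or.inl ⟨hx, h⟩)
      · exact Or.inl (Or.inr ⟨hx, h⟩)
    · rw [hm, Real.norm_eq_abs] at hn
      rcases (abs_eq hpos.le).1 hn with h | h
      · exact Or.inr (Or.inl ⟨hx, h⟩)
      · exact Or.inr (Or.inr ⟨hx, h⟩)
  have c1 := hR1 ρ h1 (S.filter (fun x => x.1 = ρ)) fun x hx =>
    ⟨(Finset.mem_filter.1 hx).2, (hS x (Finset.mem_filter.1 hx).1).2⟩
  have c2 := hR1 (-ρ) h1' (S.filter (fun x => x.1 = -ρ)) fun x hx =>
    ⟨(Finset.mem_filter.1 hx).2, (hS x (Finset.mem_filter.1 hx).1).2⟩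
  have c3 := hR2 ρ h2 (S.filter (fun x => x.2 = ρ)) fun x hx =>
    ⟨(Finset.mem_filter.1 hx).2, (hS x (Finset.mem_filter.1 hx).1).2⟩
  have c4 := hR2 (-ρ) h2' (S.filter (fun x => x.2 = -ρ)) fun x hx =>
    ⟨(Finset.mem_filter.1 hx).2, (hS x (Finset.mem_filter.1 hx).1).2⟩
  have := Finset.card_le_card hsub
  have u1 := Finset.card_union_le (S.filter (fun x => x.1 = ρ) ∪ S.filter (fun x => x.1 = -ρ))
    (S.filter (fun x => x.2 = ρ) ∪ S.filter (fun x => x.2 = -ρ))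
  have u2 := Finset.card_union_le (S.filter (fun x => x.1 = ρ)) (S.filter (fun x => x.1 = -ρ))
  have u3 := Finset.card_union_le (S.filter (fun x => x.2 = ρ)) (S.filter (fun x => x.2 = -ρ))
  omega

/-- every branch has points of every large norm -/
lemma branch_norm (hP : PARAM) (p q : Pl) (h : ℝ) (hnd : ND p q h) :
    ∃ R : ℝ, ∀ ρ : ℝ, R < ρ → ∃ x, dd p x - dd q x = h ∧ ‖x‖ = ρ := by
  obtain ⟨c0, c1, c2, ζ, hdet, -, hz⟩ := hP p q h hnd
  have hc1 : c1 ≠ 0 := by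
    rintro rfl
    simp at hdet
  have hc1' : 0 < ‖c1‖ := norm_pos_iff.2 hc1
  refine ⟨‖c0 + (1 : ℝ) • c1 + (1 : ℝ)⁻¹ • c2‖, fun ρ hρ => ?_⟩
  set f : ℝ → ℝ := fun z => ‖c0 + z • c1 + z⁻¹ • c2‖ with hf
  set M : ℝ := max 1 ((ρ + ‖c0‖ + ‖c2‖) / ‖c1‖) with hM
  have hM1 : 1 ≤ M := le_max_left _ _
  have hM2 : ρ + ‖c0‖ + ‖c2‖ ≤ M * ‖c1‖ := by
    rw [← div_le_iff₀ hc1']
    exact le_max_right _ _
  have hcont : ContinuousOn f (Set.Icc 1 M) := by
    refine ContinuousOn.norm ?_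
    refine ContinuousOn.add (ContinuousOn.add continuousOn_const ?_) ?_
    · exact continuousOn_id.smul continuousOn_const
    · have hinv : ContinuousOn (fun z : ℝ => z⁻¹) (Set.Icc 1 M) := by
        refine ContinuousOn.inv₀ continuousOn_id ?_
        intro z hz
        exact (lt_of_lt_of_le one_pos hz.1).ne'
      exact hinv.smul continuousOn_const
  have hfM : ρ ≤ f M := by
    have e1 : M • c1 = (c0 + M • c1 + M⁻¹ • c2) - c0 - M⁻¹ • c2 := by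
      abel
    have e2 : ‖M • c1‖ ≤ f M + ‖c0‖ + ‖M⁻¹ • c2‖ := by
      rw [hf]
      conv_lhs => rw [e1]
      refine (norm_sub_le _ _).trans ?_
      gcongr
      exact norm_sub_le _ _
    have e3 : ‖M • c1‖ = M * ‖c1‖ := by
      rw [norm_smul, Real.norm_eq_abs, abs_of_pos (by linarith)]
    have e4 : ‖M⁻¹ • c2‖ ≤ ‖c2‖ := by
      rw [norm_smul, Real.norm_eq_abs, abs_of_pos (by positivity)]
      have : M⁻¹ ≤ 1 := inv_le_one_of_one_le₀ hM1
      nlinarith [norm_nonneg c2]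
    linarith
  obtain ⟨z, hz1, hz2⟩ := intermediate_value_Icc hM1 hcont ⟨hρ.le, hfM⟩
  have hzpos : 0 < z := lt_of_lt_of_le one_pos hz1.1
  exact ⟨_, hz z hzpos, hz2⟩

theorem exc (hP : PARAM) (hT : TWO) : EXC := by
  classical
  intro J m fs hfs Γ hΓ
  -- norms
  choose R1 hR1 using fun j => square_count (fs j) (hfs j)
  have hbr : ∀ γ : Pl × Pl × ℝ, ∃ R : ℝ, γ ∈ Γ → ∀ ρ : ℝ, R < ρ →
      ∃ x, dd γ.1 x - dd γ.2.1 x = γ.2.2 ∧ ‖x‖ = ρ := by
    intro γ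
    by_cases hγ : γ ∈ Γ
    · obtain ⟨R, hR⟩ := branch_norm hP γ.1 γ.2.1 γ.2.2 (hΓ γ hγ).2.1
      exact ⟨R, fun _ => hR⟩
    · exact ⟨0, fun h => absurd h hγ⟩
  choose R2 hR2 using hbr
  -- common points are bounded
  have hcom : ∀ γ γ' : Pl × Pl × ℝ, ∃ R : ℝ, γ ∈ Γ → γ' ∈ Γ → γ ≠ γ' → ∀ x,
      dd γ.1 x - dd γ.2.1 x = γ.2.2 → dd γ'.1 x - dd γ'.2.1 x = γ'.2.2 → ‖x‖ ≤ R := by
    intro γ γ'
    by_cases hγ : γ ∈ Γ
    swap
    · exact ⟨0, fun h => absurd h hγ⟩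
    by_cases hγ' : γ' ∈ Γ
    swap
    · exact ⟨0, fun _ h => absurd h hγ'⟩
    by_cases hne : γ = γ'
    · exact ⟨0, fun _ _ h => absurd hne h⟩
    by_cases hfoci : (γ'.1 = γ.1 ∧ γ'.2.1 = γ.2.1) ∨ (γ'.1 = γ.2.1 ∧ γ'.2.1 = γ.1)
    · refine ⟨0, fun _ _ _ x hx hx' => ?_⟩
      exfalso
      rcases hfoci with ⟨h1, h2⟩ | ⟨h1, h2⟩
      · rw [h1, h2, hx] at hx'
        exact hne (Prod.ext h1.symm (Prod.ext h2.symm hx'))
      · rw [h1, h2] at hx'
        have a1 := (hΓ γ hγ).1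
        have a2 := (hΓ γ' hγ').1
        linarith
    · have hfin : {x : Pl | dd γ.1 x - dd γ.2.1 x = γ.2.2 ∧
          dd γ'.1 x - dd γ'.2.1 x = γ'.2.2}.Finite := by
        by_contra hinf
        obtain ⟨S, hS, hcard⟩ := (Set.not_finite.1 hinf).exists_subset_card_eq 6 |>.imp
          (fun _ h => h)
        have := hT γ.1 γ.2.1 γ'.1 γ'.2.1 γ.2.2 γ'.2.2 (hΓ γ hγ).2.1 (hΓ γ' hγ').2.1 hfoci S
          (fun x hx => hS hx)
        omega
      obtain ⟨R, hR⟩ := (hfin.toFinset.image (fun x => ‖x‖)).exists_le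
      refine ⟨R, fun _ _ _ x hx hx' => ?_⟩
      refine hR _ (Finset.mem_image.2 ⟨x, ?_, rfl⟩)
      rw [Set.Finite.mem_toFinset]
      exact ⟨hx, hx'⟩
  choose R3 hR3 using hcom
  -- a large radius
  obtain ⟨A, hA⟩ := ((Finset.univ : Finset (Fin J)).image R1 ∪ Γ.image R2 ∪
    (Γ ×ˢ Γ).image (fun s => R3 s.1 s.2)).exists_le
  set ρ : ℝ := max A 0 + 1 with hρ
  have hρ0 : 0 < ρ := by
    have := le_max_right A 0
    linarith
  have hρA : A < ρ := by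
    have := le_max_left A 0
    linarith
  have hρ1 : ∀ j, R1 j < ρ := fun j => lt_of_le_of_lt (hA _ (Finset.mem_union_left _
    (Finset.mem_union_left _ (Finset.mem_image_of_mem _ (Finset.mem_univ j))))) hρA
  have hρ2 : ∀ γ ∈ Γ, R2 γ < ρ := fun γ hγ => lt_of_le_of_lt (hA _ (Finset.mem_union_left _
    (Finset.mem_union_right _ (Finset.mem_image_of_mem _ hγ)))) hρA
  have hρ3 : ∀ γ ∈ Γ, ∀ γ' ∈ Γ, R3 γ γ' < ρ := fun γ hγ γ' hγ' =>
    lt_of_le_of_lt (hA _ (Finset.mem_union_right _ (Finset.mem_image.2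
      ⟨(γ, γ'), Finset.mem_product.2 ⟨hγ, hγ'⟩, rfl⟩))) hρA
  -- choose a point on each branch
  have hpt : ∀ γ : Pl × Pl × ℝ, ∃ x : Pl, γ ∈ Γ → dd γ.1 x - dd γ.2.1 x = γ.2.2 ∧ ‖x‖ = ρ := by
    intro γ
    by_cases hγ : γ ∈ Γ
    · obtain ⟨x, hx⟩ := hR2 γ hγ ρ (hρ2 γ hγ)
      exact ⟨x, fun _ => hx⟩
    · exact ⟨0, fun h => absurd h hγ⟩
  choose pt hpt using hpt
  have hinj : Set.InjOn pt (Γ : Set (Pl × Pl × ℝ)) := by
    intro γ hγ γ' hγ' he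
    by_contra hne
    have h1 := hpt γ hγ
    have h2 := hpt γ' hγ'
    rw [← he] at h2
    have := hR3 γ γ' hγ hγ' hne (pt γ) h1.1 h2.1
    have h3 := hρ3 γ hγ γ' hγ'
    rw [h1.2] at this
    linarith
  -- count
  have hcov : Γ.image pt ⊆ Finset.univ.biUnion
      (fun j : Fin J => (Γ.image pt).filter (fun x => ev (fs j) x = 0)) := by
    intro x hx
    obtain ⟨γ, hγ, rfl⟩ := Finset.mem_image.1 hx
    obtain ⟨-, -, j, hj⟩ := hΓ γ hγ
    rw [Finset.mem_biUnion]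
    exact ⟨j, Finset.mem_univ j, Finset.mem_filter.2 ⟨hx, hj _ (hpt γ hγ).1⟩⟩
  rw [← Finset.card_image_of_injOn hinj]
  refine (Finset.card_le_card hcov).trans (Finset.card_biUnion_le.trans ?_)
  refine Finset.sum_le_sum fun j _ => ?_
  refine le_trans (hR1 j ρ (hρ1 j) hρ0 _ ?_) (Nat.le_succ _)
  intro x hx
  rw [Finset.mem_filter] at hx
  obtain ⟨γ, hγ, rfl⟩ := Finset.mem_image.1 hx.1
  exact ⟨(hpt γ hγ).2, hx.2⟩

end Pool.Agent.H79.Per
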